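import Mathlib
import Pool.Agent.H183R3.LinForm2

open Finset H183R3.LF

universe u

/-- **Commutative rings.**  Let `R` be a commutative ring and `f`, `g` coefficient vectors.
(1) If some maximal ideal `m` with finite residue field does not contain all `f i`, and no vector
`(∑ j ∈ J i, g j)` with pairwise disjoint `J i` is congruent mod `m` to `c * f` with `c ∉ m`,
then (S) holds.
(2) If `a * ∑ j ∈ J i, g j = b * f i` for all `i`, with pairwise disjoint `J i`, where `a` and `b`
divide a power of a common divisor `d` of the `f i` (for instance `a = d = 1` and `b` a unit),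
then (S) fails. -/
theorem Pool.Agent.Results.MP_0c4eaf_nt.CommRings.result (R : Type u) [CommRing R] {h l : ℕ}
    (f : Fin h → R) (g : Fin l → R) :
    ((∃ m : Ideal R, m.IsMaximal ∧ Finite (R ⧸ m) ∧ (∃ i, f i ∉ m) ∧
        ¬ ∃ (c : R) (J : Fin h → Finset (Fin l)), c ∉ m ∧
          (∀ i i', i ≠ i' → Disjoint (J i) (J i')) ∧
            ∀ i, ∑ j ∈ J i, g j - c * f i ∈ m) → PropertyS R f g) ∧
    ((∃ (J : Fin h → Finset (Fin l)) (d a b : R) (k : ℕ),
        (∀ i i', i ≠ i' → Disjoint (J i) (J i')) ∧ (∀ i, d ∣ f i) ∧ a ∣ d ^ k ∧ b ∣ d ^ k ∧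
          ∀ i, a * ∑ j ∈ J i, g j = b * f i) →
      ¬ PropertyS R f g) := by
  refine ⟨?_, ?_⟩
  · rintro ⟨m, hm, hfin, hf, hobs⟩
    apply local_criterion f g m hm hfin hf
    intro c hc J hJ
    by_contra hcon
    push Not at hcon
    exact hobs ⟨c, J, hc, hJ, hcon⟩
  · rintro ⟨J, d, a, b, k, hJ, hd, ha, hb, hab⟩
    exact not_propertyS f g J hJ d a b k hd ha hb hab
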