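import Mathlib
import Pool.Agent.H183R3.LinForm2

open Finset H183R3.LF

universe u

/-- **Complete classification over fields.**  Over a field `K`, the pair of linear forms with
coefficient vectors `f` and `g` has property (S) if and only if `K` is finite, `f ≠ 0`, and there
are no nonzero `c : K` and pairwise disjoint sets `J i` of indices of `g` with
`∑ j ∈ J i, g j = c * f i` for all `i`. -/
theorem Pool.Agent.Results.MP_0c4eaf_nt.Fields.result (K : Type u) [Field K] {h l : ℕ}
    (f : Fin h → K) (g : Fin l → K) :
    PropertyS K f g ↔
      Finite K ∧ f ≠ 0 ∧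
        ¬ ∃ (c : K) (J : Fin h → Finset (Fin l)),
          c ≠ 0 ∧ (∀ i i', i ≠ i' → Disjoint (J i) (J i')) ∧
            ∀ i, ∑ j ∈ J i, g j = c * f i :=
  field_classification K f g
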