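import Mathlib
import Pool.Agent.H183R3.LinForm3

open Finset H183R3.LF

/-- **Abelian groups (`R = ℤ`).**  Let `f ≠ 0` and `g` be integer coefficient vectors, and for
pairwise disjoint sets `J i` of indices of `g` put `σ i = ∑ j ∈ J i, g j`.
(1) If for some prime `p` not dividing every `f i` no such `σ` is congruent mod `p` to `c * f`
with `p ∤ c`, then (S) holds.
(2) If no such `σ` is a nonzero rational multiple of `f`, then (S) holds.
(3) If some such `σ` is a nonzero rational multiple of `f` and every prime dividing all `σ i`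
divides all `f i`, then (S) fails. -/
theorem Pool.Agent.Results.MP_0c4eaf_nt.Integers.result {h l : ℕ}
    (f : Fin h → ℤ) (g : Fin l → ℤ) (hf : f ≠ 0) :
    ((∃ p : ℕ, p.Prime ∧ (∃ i, ¬ (p : ℤ) ∣ f i) ∧
        ¬ ∃ (c : ℤ) (J : Fin h → Finset (Fin l)), ¬ (p : ℤ) ∣ c ∧
          (∀ i i', i ≠ i' → Disjoint (J i) (J i')) ∧
            ∀ i, (p : ℤ) ∣ ∑ j ∈ J i, g j - c * f i) → PropertyS ℤ f g) ∧
    ((¬ ∃ (c : ℚ) (J : Fin h → Finset (Fin l)), c ≠ 0 ∧
        (∀ i i', i ≠ i' → Disjoint (J i) (J i')) ∧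
          ∀ i, ((∑ j ∈ J i, g j : ℤ) : ℚ) = c * (f i : ℚ)) → PropertyS ℤ f g) ∧
    ((∃ (c : ℚ) (J : Fin h → Finset (Fin l)), c ≠ 0 ∧
        (∀ i i', i ≠ i' → Disjoint (J i) (J i')) ∧
          (∀ i, ((∑ j ∈ J i, g j : ℤ) : ℚ) = c * (f i : ℚ)) ∧
          ∀ p : ℕ, p.Prime → (∀ i, (p : ℤ) ∣ ∑ j ∈ J i, g j) → ∀ i, (p : ℤ) ∣ f i) →
      ¬ PropertyS ℤ f g) := by
  refine ⟨?_, ?_, ?_⟩
  · rintro ⟨p, hp, hfp, hobs⟩
    apply int_prime f g p hp hfp
    intro c hc J hJ
    by_contra hcon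
    push Not at hcon
    exact hobs ⟨c, J, hc, hJ, hcon⟩
  · intro hobs
    apply int_rational f g hf
    intro J hJ hprop i
    by_contra hi
    apply hobs
    obtain ⟨i0, hi0⟩ : ∃ i, f i ≠ 0 := by
      by_contra hcon
      push Not at hcon
      exact hf (funext hcon)
    have hfi : (f i0 : ℚ) ≠ 0 := by exact_mod_cast hi0
    have hσ0 : ∑ j ∈ J i0, g j ≠ 0 := by
      intro h0
      have := hprop i i0
      rw [h0, zero_mul] at this
      rcases mul_eq_zero.1 this with h1 | h1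
      · exact hi h1
      · exact hi0 h1
    refine ⟨((∑ j ∈ J i0, g j : ℤ) : ℚ) / (f i0 : ℚ), J, ?_, hJ, ?_⟩
    · apply div_ne_zero _ hfi
      exact_mod_cast hσ0
    · intro i'
      rw [div_mul_eq_mul_div, eq_div_iff hfi]
      exact_mod_cast hprop i' i0
  · rintro ⟨c, J, hc, hJ, hcJ, hpr⟩
    obtain ⟨i0, hi0⟩ : ∃ i, f i ≠ 0 := by
      by_contra hcon
      push Not at hcon
      exact hf (funext hcon)
    apply int_neg f g J hJ _ _ hpr
    · refine ⟨i0, fun h0 => ?_⟩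
      have := hcJ i0
      rw [h0] at this
      have hfi : (f i0 : ℚ) ≠ 0 := by exact_mod_cast hi0
      exact (mul_ne_zero hc hfi) (by simpa using this.symm)
    · intro i i'
      have h1 := hcJ i
      have h2 := hcJ i'
      have : ((∑ j ∈ J i, g j : ℤ) : ℚ) * (f i' : ℚ) = ((∑ j ∈ J i', g j : ℤ) : ℚ) * (f i : ℚ) := by
        rw [h1, h2]
        ring
      exact_mod_cast this
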